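import Pool.Agent.H26.SAB.SPR

/-! MP_63b6b1_nt, qcf_modules, row PODC: extensions of odd degree and intersections of two
quadrics. -/

set_option autoImplicit false

open Polynomial Matrix Pool.Agent.H32.SAB

namespace Pool.Agent.H26.SAB

theorem qv_add {R : Type*} [CommRing R] {n : ℕ} (A B : Matrix (Fin n) (Fin n) R)
    (x : Fin n → R) : qv (A + B) x = qv A x + qv B x := by
  unfold qv
  rw [← Finset.sum_add_distrib]
  refine Finset.sum_congr rfl fun i _ => ?_
  rw [← Finset.sum_add_distrib]
  refine Finset.sum_congr rfl fun j _ => ?_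
  rw [Matrix.add_apply]
  ring

theorem qv_smulM {R : Type*} [CommRing R] {n : ℕ} (A : Matrix (Fin n) (Fin n) R) (t : R)
    (x : Fin n → R) : qv (t • A) x = t * qv A x := by
  unfold qv
  rw [Finset.mul_sum]
  refine Finset.sum_congr rfl fun i _ => ?_
  rw [Finset.mul_sum]
  refine Finset.sum_congr rfl fun j _ => ?_
  rw [Matrix.smul_apply, smul_eq_mul]
  ring

theorem pf_ODC (hSPR : T_SPR) (hAMB : T_AMB) (hIRR : T_IRR) : T_ODC := by
  intro k K _ _ _ _ _ hodd n A B hA hB hiso
  obtain ⟨x, hx, hxA, hxB⟩ := hiso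
  obtain ⟨pb⟩ : Nonempty (PowerBasis k K) := ⟨Field.powerBasisOfFiniteOfSeparable k K⟩
  obtain ⟨p, hp⟩ : ∃ p, p = minpoly k pb.gen := ⟨_, rfl⟩
  have hpi : Irreducible p := by rw [hp]; exact minpoly.irreducible pb.isIntegral_gen
  have hpd : p.natDegree = Module.finrank k K := by
    rw [hp, PowerBasis.natDegree_minpoly, PowerBasis.finrank]
  obtain ⟨pF, hpF⟩ : ∃ pF : (RatFunc k)[X], pF = p.map (algebraMap k (RatFunc k)) := ⟨_, rfl⟩
  have hpFi : Irreducible pF := by rw [hpF]; exact hIRR k p hpi
  have hpFd : Odd pF.natDegree := by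
    rw [hpF, natDegree_map, hpd]
    exact hodd
  haveI : Fact (Irreducible pF) := ⟨hpFi⟩
  have hroot : aeval (AdjoinRoot.root pF) (minpoly k pb.gen) = 0 := by
    rw [← hp]
    have h1 : aeval (AdjoinRoot.root pF) pF = 0 := by
      rw [AdjoinRoot.aeval_eq, AdjoinRoot.mk_self]
    have h2 : aeval (AdjoinRoot.root pF) (p.map (algebraMap k (RatFunc k))) =
        aeval (AdjoinRoot.root pF) p := aeval_map_algebraMap _ _ _
    rw [← h2]
    exact (congrArg (aeval (AdjoinRoot.root pF)) hpF.symm).trans h1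
  obtain ⟨ι, -⟩ : ∃ ι : K →ₐ[k] AdjoinRoot pF, True := ⟨pb.lift _ hroot, trivial⟩
  have hι : Function.Injective ι := ι.toRingHom.injective
  obtain ⟨t, ht⟩ : ∃ t : RatFunc k, t = RatFunc.X := ⟨_, rfl⟩
  obtain ⟨M, hM⟩ : ∃ M : Matrix (Fin n) (Fin n) (RatFunc k),
      M = A.map (algebraMap k (RatFunc k)) + t • B.map (algebraMap k (RatFunc k)) := ⟨_, rfl⟩
  have hcomm : ∀ (D : Matrix (Fin n) (Fin n) k), (D.map (algebraMap k K)).map ι.toRingHom =
      D.map (algebraMap k (AdjoinRoot pF)) := by
    intro D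
    ext i j
    exact ι.commutes (D i j)
  have hzero : ∀ (D : Matrix (Fin n) (Fin n) k), qv (D.map (algebraMap k K)) x = 0 →
      qv (D.map (algebraMap k (AdjoinRoot pF))) (fun i => ι (x i)) = 0 := by
    intro D hD
    rw [← hcomm]
    have h1 := qv_hom ι.toRingHom (D.map (algebraMap k K)) x
    rw [hD, map_zero] at h1
    exact h1.symm
  have hisoM : IsoM M (AdjoinRoot pF) := by
    refine ⟨fun i => ι (x i), ?_, ?_⟩
    · intro h0
      apply hx
      funext i
      have h1 : ι (x i) = 0 := congrFun h0 i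
      exact hι (h1.trans (map_zero ι).symm)
    · have h1 : M.map (algebraMap (RatFunc k) (AdjoinRoot pF)) =
          A.map (algebraMap k (AdjoinRoot pF)) +
          (algebraMap (RatFunc k) (AdjoinRoot pF) t) • B.map (algebraMap k (AdjoinRoot pF)) := by
        ext i j
        rw [hM]
        show algebraMap (RatFunc k) (AdjoinRoot pF) (algebraMap k (RatFunc k) (A i j) +
          t * algebraMap k (RatFunc k) (B i j)) = algebraMap k (AdjoinRoot pF) (A i j) +
          algebraMap (RatFunc k) (AdjoinRoot pF) t * algebraMap k (AdjoinRoot pF) (B i j)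
        rw [map_add, map_mul, ← IsScalarTower.algebraMap_apply,
          ← IsScalarTower.algebraMap_apply]
      rw [h1, qv_add, qv_smulM, hzero A hxA, hzero B hxB, mul_zero, add_zero]
  obtain ⟨y, hy, hy0⟩ := hSPR (RatFunc k) n M pF hpFi hpFd hisoM
  have hid : M.map (algebraMap (RatFunc k) (RatFunc k)) = M := by
    ext i j
    rfl
  rw [hid] at hy0
  -- clear the denominators
  obtain ⟨b, hb⟩ := IsLocalization.exist_integer_multiples_of_finite (nonZeroDivisors k[X]) y
  choose v hv using hb
  have hv' : ∀ i, algebraMap k[X] (RatFunc k) (v i) =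
      algebraMap k[X] (RatFunc k) (b : k[X]) * y i := by
    intro i
    rw [hv i, Algebra.smul_def]
  have hbne : algebraMap k[X] (RatFunc k) (b : k[X]) ≠ 0 := by
    intro h0
    exact nonZeroDivisors.ne_zero b.2 ((IsFractionRing.injective k[X] (RatFunc k))
      (by rw [h0, map_zero]))
  refine hAMB k two_ne_zero n A B hA hB ⟨v, ?_, ?_⟩
  · intro h0
    apply hy
    funext i
    have h1 := hv' i
    rw [h0] at h1
    have h2 : algebraMap k[X] (RatFunc k) (b : k[X]) * y i = 0 := by
      rw [← h1]
      exact map_zero _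
    rcases mul_eq_zero.1 h2 with h3 | h3
    · exact absurd h3 hbne
    · exact h3
  · apply IsFractionRing.injective k[X] (RatFunc k)
    have hC : ∀ (D : Matrix (Fin n) (Fin n) k),
        algebraMap k[X] (RatFunc k) (qv (D.map C) v) =
          (algebraMap k[X] (RatFunc k) (b : k[X])) ^ 2 *
            qv (D.map (algebraMap k (RatFunc k))) y := by
      intro D
      rw [qv_hom, ← qv_smul]
      have h1 : (D.map C).map (algebraMap k[X] (RatFunc k)) =
          D.map (algebraMap k (RatFunc k)) := by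
        ext i j
        show algebraMap k[X] (RatFunc k) (C (D i j)) = algebraMap k (RatFunc k) (D i j)
        rw [← Polynomial.algebraMap_eq, ← IsScalarTower.algebraMap_apply]
      rw [h1]
      congr 1
      funext i
      exact hv' i
    rw [map_add, map_mul, hC, hC, map_zero, RatFunc.algebraMap_X, ← ht]
    rw [hM, qv_add, qv_smulM] at hy0
    linear_combination (algebraMap k[X] (RatFunc k) (b : k[X])) ^ 2 * hy0

end Pool.Agent.H26.SAB
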