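import Pool.Agent.H32.SAB.Targets

/-! MP_63b6b1_nt, qcf_modules, row PSPR: the theorem of Springer on extensions of odd degree. -/

set_option autoImplicit false

open Polynomial Matrix Pool.Agent.H32.SAB

namespace Pool.Agent.H26.SAB

theorem qv_hom {R S : Type*} [CommRing R] [CommRing S] {n : ℕ} (φ : R →+* S)
    (A : Matrix (Fin n) (Fin n) R) (x : Fin n → R) :
    φ (qv A x) = qv (A.map φ) (fun i => φ (x i)) := by
  unfold qv
  rw [map_sum]
  refine Finset.sum_congr rfl fun i _ => ?_
  rw [map_sum]
  refine Finset.sum_congr rfl fun j _ => ?_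
  rw [map_mul, map_mul]
  rfl

theorem qv_smul {R : Type*} [CommRing R] {n : ℕ} (A : Matrix (Fin n) (Fin n) R) (c : R)
    (x : Fin n → R) : qv A (fun i => c * x i) = c ^ 2 * qv A x := by
  unfold qv
  rw [Finset.mul_sum]
  refine Finset.sum_congr rfl fun i _ => ?_
  rw [Finset.mul_sum]
  refine Finset.sum_congr rfl fun j _ => ?_
  ring

theorem qv_coeff {F : Type*} [Field F] {n : ℕ} (A : Matrix (Fin n) (Fin n) F) (v : Fin n → F[X])
    (m : ℕ) (hm : ∀ i, (v i).natDegree ≤ m) :
    (qv (A.map C) v).coeff (m + m) = qv A (fun i => (v i).coeff m) := by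
  unfold qv
  rw [finsetSum_coeff]
  refine Finset.sum_congr rfl fun i _ => ?_
  rw [finsetSum_coeff]
  refine Finset.sum_congr rfl fun j _ => ?_
  show (C (A i j) * v i * v j).coeff (m + m) = A i j * (v i).coeff m * (v j).coeff m
  rw [coeff_mul_add_eq_of_natDegree_le ((natDegree_C_mul_le _ _).trans (hm i)) (hm j),
    coeff_C_mul]

theorem qv_deg {F : Type*} [Field F] {n : ℕ} (A : Matrix (Fin n) (Fin n) F) (v : Fin n → F[X])
    (m : ℕ) (hm : ∀ i, (v i).natDegree ≤ m) : (qv (A.map C) v).natDegree ≤ m + m := by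
  unfold qv
  refine natDegree_sum_le_of_forall_le _ _ fun i _ => ?_
  refine natDegree_sum_le_of_forall_le _ _ fun j _ => ?_
  exact (natDegree_mul_le).trans (Nat.add_le_add
    ((natDegree_C_mul_le (A i j) (v i)).trans (hm i)) (hm j))

theorem odd_factor {F : Type*} [Field F] : ∀ h : F[X], h ≠ 0 → Odd h.natDegree →
    ∃ p : F[X], Irreducible p ∧ Odd p.natDegree ∧ p ∣ h := by
  intro h
  refine WfDvdMonoid.induction_on_irreducible h ?_ ?_ ?_
  · intro h0
    exact absurd rfl h0
  · intro u hu _ ho
    rw [natDegree_eq_zero_of_isUnit hu] at ho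
    exact absurd ho (by decide)
  · intro a i ha hi ih _ ho
    rw [natDegree_mul hi.ne_zero ha] at ho
    rcases Nat.even_or_odd i.natDegree with he | hod
    · have h1 : Odd a.natDegree := (Nat.odd_add'.1 ho).2 he
      obtain ⟨p, hp1, hp2, hp3⟩ := ih ha h1
      exact ⟨p, hp1, hp2, dvd_mul_of_dvd_right hp3 i⟩
    · exact ⟨i, hi, hod, dvd_mul_right i a⟩

theorem pf_SPR : T_SPR := by
  intro F _ n A p hp hodd hiso
  obtain ⟨d, hd⟩ : ∃ d, d = p.natDegree := ⟨_, rfl⟩
  induction d using Nat.strong_induction_on generalizing p with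
  | _ d ih =>
  by_contra hcon
  have han : ∀ x : Fin n → F, x ≠ 0 → qv A x ≠ 0 := by
    intro x hx h0
    refine hcon ⟨x, hx, ?_⟩
    have : A.map (algebraMap F F) = A := by
      ext i j
      rfl
    rw [this]
    exact h0
  have hpd : 0 < p.natDegree := hp.natDegree_pos
  -- a polynomial zero
  have hmk : ∀ (f : F[X]) (v : Fin n → F[X]),
      (qv (A.map (algebraMap F (AdjoinRoot f))) (fun i => AdjoinRoot.mk f (v i)) = 0 ↔
        f ∣ qv (A.map C) v) := by
    intro f v
    rw [← AdjoinRoot.mk_eq_zero, qv_hom]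
    have : (A.map C).map (AdjoinRoot.mk f) = A.map (algebraMap F (AdjoinRoot f)) := by
      ext i j
      rfl
    rw [this]
  obtain ⟨Q, hQ⟩ : ∃ Q : ℕ → Prop, ∀ m, Q m ↔ ∃ v : Fin n → F[X], v ≠ 0 ∧
      (∀ i, (v i).natDegree ≤ m) ∧ p ∣ qv (A.map C) v := ⟨_, fun _ => Iff.rfl⟩
  have hQ0 : Q (p.natDegree - 1) := by
    obtain ⟨x, hx, hx0⟩ := hiso
    choose f hf using fun i => AdjoinRoot.mk_surjective (x i)
    rw [hQ]
    have hfm : ∀ i, AdjoinRoot.mk p (f i % p) = x i := by
      intro i
      rw [← hf i, AdjoinRoot.mk_eq_mk]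
      have := EuclideanDomain.div_add_mod (f i) p
      refine ⟨-(f i / p), ?_⟩
      linear_combination this
    refine ⟨fun i => f i % p, ?_, ?_, ?_⟩
    · intro h0
      apply hx
      funext i
      rw [← hfm i]
      have : f i % p = 0 := congrFun h0 i
      rw [this, map_zero]
      rfl
    · intro i
      have h1 := natDegree_mod_lt (f i) (q := p) hpd.ne'
      show (f i % p).natDegree ≤ _
      omega
    · rw [← hmk]
      have : (fun i => AdjoinRoot.mk p (f i % p)) = x := funext hfm
      rw [this]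
      exact hx0
  classical
  obtain ⟨m, hm⟩ : ∃ m, m = Nat.find ⟨_, hQ0⟩ := ⟨_, rfl⟩
  have hQm : Q m := by rw [hm]; exact Nat.find_spec ⟨_, hQ0⟩
  have hmin : ∀ k, Q k → m ≤ k := fun k hk => by rw [hm]; exact Nat.find_min' ⟨_, hQ0⟩ hk
  have hmlt : m < p.natDegree := by
    have := hmin _ hQ0
    omega
  rw [hQ] at hQm
  obtain ⟨v, hv, hvm, hvp⟩ := hQm
  -- the leading coefficients
  have hw : (fun i => (v i).coeff m) ≠ 0 := by
    intro h0
    have hc : ∀ i, (v i).coeff m = 0 := fun i => congrFun h0 i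
    rcases Nat.eq_zero_or_pos m with hm0 | hm0
    · apply hv
      funext i
      have h1 : v i = C ((v i).coeff 0) := eq_C_of_natDegree_le_zero (by
        have := hvm i
        omega)
      rw [h1, ← hm0, hc i, C_0]
      rfl
    · have h1 : Q (m - 1) := by
        rw [hQ]
        refine ⟨v, hv, fun i => ?_, hvp⟩
        rw [natDegree_le_iff_coeff_eq_zero]
        intro N hN
        rcases Nat.lt_or_ge m N with h2 | h2
        · exact coeff_eq_zero_of_natDegree_lt (lt_of_le_of_lt (hvm i) h2)
        · have : N = m := by omega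
          rw [this]
          exact hc i
      have := hmin _ h1
      omega
  have hcoeff : (qv (A.map C) v).coeff (m + m) ≠ 0 := by
    rw [qv_coeff A v m hvm]
    exact han _ hw
  have hq0 : qv (A.map C) v ≠ 0 := by
    intro h0
    rw [h0, coeff_zero] at hcoeff
    exact hcoeff rfl
  have hdeg : (qv (A.map C) v).natDegree = m + m :=
    le_antisymm (qv_deg A v m hvm) (le_natDegree_of_ne_zero hcoeff)
  obtain ⟨h, hh⟩ := hvp
  have hh0 : h ≠ 0 := by
    rintro rfl
    rw [mul_zero] at hh
    exact hq0 hh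
  have hhd : p.natDegree + h.natDegree = m + m := by
    rw [← natDegree_mul hp.ne_zero hh0, ← hh, hdeg]
  have hhodd : Odd h.natDegree := by
    rcases Nat.even_or_odd h.natDegree with he | ho
    · have h1 : Odd (p.natDegree + h.natDegree) := hodd.add_even he
      rw [hhd] at h1
      exact absurd h1 (Nat.not_odd_iff_even.2 ⟨m, rfl⟩)
    · exact ho
  obtain ⟨p', hp', hp'o, hp'h⟩ := odd_factor h hh0 hhodd
  have hp'd : p'.natDegree ≤ h.natDegree := natDegree_le_of_dvd hp'h hh0
  have hlt : p'.natDegree < p.natDegree := by omega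
  have hp'q : p' ∣ qv (A.map C) v := by
    rw [hh]
    exact dvd_mul_of_dvd_right hp'h p
  -- `p'` does not divide all the coordinates
  have hnd : ¬ ∀ i, p' ∣ v i := by
    intro hall
    choose u hu using hall
    have hp'1 : 0 < p'.natDegree := hp'.natDegree_pos
    have hv' : v = fun i => p' * u i := funext hu
    have h1 : Q (m - p'.natDegree) := by
      rw [hQ]
      refine ⟨u, ?_, ?_, ?_⟩
      · intro h0
        apply hv
        rw [hv', h0]
        funext i
        simp
      · intro i
        rcases eq_or_ne (u i) 0 with h0 | h0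
        · rw [h0, natDegree_zero]
          exact Nat.zero_le _
        · have h2 := hvm i
          rw [hu i, natDegree_mul hp'.ne_zero h0] at h2
          omega
      · have h2 : p ∣ p' ^ 2 * qv (A.map C) u := by
          rw [← qv_smul, ← hv']
          exact ⟨h, hh⟩
        rcases hp.prime.dvd_or_dvd h2 with h3 | h3
        · have h4 := hp.prime.dvd_of_dvd_pow h3
          have h5 := natDegree_le_of_dvd h4 hp'.ne_zero
          omega
        · exact h3
    have h2 := hmin _ h1
    rcases Nat.eq_zero_or_pos m with hm0 | hm0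
    · -- then `v` is constant and `p'` divides it
      apply hv
      funext i
      have h3 := hvm i
      rw [hm0] at h3
      rcases eq_or_ne (u i) 0 with h0 | h0
      · rw [hu i, h0, mul_zero]
        rfl
      · rw [hu i, natDegree_mul hp'.ne_zero h0] at h3
        omega
    · omega
  refine hcon (ih p'.natDegree (by omega) p' hp' hp'o ?_ rfl)
  refine ⟨fun i => AdjoinRoot.mk p' (v i), ?_, (hmk p' v).2 hp'q⟩
  intro h0
  apply hnd
  intro i
  exact AdjoinRoot.mk_eq_zero.1 (congrFun h0 i)

end Pool.Agent.H26.SAB
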